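import Pool.Agent.MP_3ee8cb_gt.DNC.Cov2
import Pool.Agent.MP_3ee8cb_gt.DN.Spec2

/-! Change of variables for homogeneous local diffeomorphisms. -/

namespace Pool.Agent.MP_3ee8cb_gt.DN

variable [Dim]

theorem rank3 : 3 ≤ Module.finrank ℝ V := by simp [dm]

theorem sCOV : SCOV := by
  intro ξ h hd
  have H : DNC.Hm ξ := ⟨h.c1, h.hom, hd⟩
  obtain ⟨W, hW, l, r, -⟩ := H.inv rank3
  refine ⟨W, ⟨hW.c1, hW.hom⟩, fun a ha => ⟨H.ne ha, l a ha⟩, fun u hu => ⟨hW.ne hu, r u hu⟩,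
    fun f _ => ?_⟩
  have e := H.cov_int MeasureTheory.volume rank3 f
  rw [finrank_euclideanSpace_fin] at e
  simpa only [sph, div_eq_mul_inv] using e

end Pool.Agent.MP_3ee8cb_gt.DN
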