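import Pool.Agent.MP_3ee8cb_gt.DNC.Cov

/-! The same for homogeneous maps that need not preserve the norm. -/

namespace Pool.Agent.MP_3ee8cb_gt.DNC

open Set Filter Topology MeasureTheory Metric

variable {E : Type*} [NormedAddCommGroup E] [InnerProductSpace ℝ E]

/-- A homogeneous map of class `C¹` with invertible derivative. -/
structure Hm (Z : E → E) : Prop where
  c1 : ContDiffOn ℝ 1 Z {a | a ≠ 0}
  hom : ∀ (r : ℝ) a, r ≠ 0 → a ≠ 0 → Z (r • a) = r • Z a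
  det : ∀ a, ‖a‖ = 1 → (fderiv ℝ Z a).det ≠ 0

theorem Rad.hm {Z : E → E} (h : Rad Z) : Hm Z := ⟨h.c1, h.hom, h.det⟩

namespace Hm

variable {Z : E → E}

theorem cat (h : Hm Z) {a : E} (ha : a ≠ 0) : ContDiffAt ℝ 1 Z a :=
  h.c1.contDiffAt (op0.mem_nhds ha)

theorem dat (h : Hm Z) {a : E} (ha : a ≠ 0) : HasFDerivAt Z (fderiv ℝ Z a) a :=
  ((h.cat ha).differentiableAt one_ne_zero).hasFDerivAt

theorem fd (h : Hm Z) {a : E} (ha : a ≠ 0) {r : ℝ} (hr : r ≠ 0) :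
    fderiv ℝ Z (r • a) = fderiv ℝ Z a := by
  have h1 : HasFDerivAt (fun x => Z (r • x))
      ((fderiv ℝ Z (r • a)).comp (r • ContinuousLinearMap.id ℝ E)) a :=
    (h.dat (smul_ne_zero hr ha)).comp a ((hasFDerivAt_id a).const_smul r)
  have h2 : HasFDerivAt (fun x => Z (r • x)) (r • fderiv ℝ Z a) a := by
    refine ((h.dat ha).const_smul r).congr_of_eventuallyEq ?_
    filter_upwards [op0.mem_nhds ha] with x hx using h.hom r x hr hx
  have h3 := h1.unique h2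
  ext v
  have h4 := congrArg (fun L : E →L[ℝ] E => L v) h3
  simp only [ContinuousLinearMap.comp_apply, smul_apply,
    ContinuousLinearMap.id_apply, map_smul] at h4
  exact smul_right_injective E hr h4

theorem det' (h : Hm Z) {a : E} (ha : a ≠ 0) : (fderiv ℝ Z a).det ≠ 0 := by
  rw [← h.fd ha (inv_ne_zero (norm_ne_zero_iff.2 ha))]
  exact h.det _ (Rad.unit ha)

theorem euler (h : Hm Z) {a : E} (ha : a ≠ 0) : fderiv ℝ Z a a = Z a := by
  have h0 : HasDerivAt (fun r : ℝ => r • a) a 1 := by simpa using (hasDerivAt_id (1 : ℝ)).smul_const a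
  have h1 : HasDerivAt (fun r : ℝ => Z (r • a)) (fderiv ℝ Z a a) 1 :=
    HasFDerivAt.comp_hasDerivAt_of_eq 1 (h.dat ha) h0 (one_smul ℝ a).symm
  have h2 : HasDerivAt (fun r : ℝ => Z (r • a)) (Z a) 1 := by
    have h3 : HasDerivAt (fun r : ℝ => r • Z a) (Z a) 1 := by
      simpa using (hasDerivAt_id (1 : ℝ)).smul_const (Z a)
    refine h3.congr_of_eventuallyEq ?_
    filter_upwards [isOpen_ne.mem_nhds (one_ne_zero (α := ℝ))] with r hr using h.hom r a hr ha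
  exact h1.unique h2

variable [FiniteDimensional ℝ E]

theorem ne (h : Hm Z) {a : E} (ha : a ≠ 0) : Z a ≠ 0 := fun e => by
  have h1 := h.euler ha
  rw [e, ← (fderiv ℝ Z a).coe_toContinuousLinearEquivOfDetNeZero (h.det' ha)] at h1
  exact ha ((ContinuousLinearEquiv.map_eq_zero_iff _).1 h1)

theorem lam (h : Hm Z) {a : E} (ha : a ≠ 0) : ContDiffAt ℝ 1 (fun x => ‖x‖ / ‖Z x‖) a :=
  (contDiffAt_id.norm ℝ ha).div ((h.cat ha).norm ℝ (h.ne ha)) (norm_ne_zero_iff.2 (h.ne ha))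

theorem lam_hom (h : Hm Z) {a : E} (ha : a ≠ 0) {r : ℝ} (hr : r ≠ 0) :
    ‖r • a‖ / ‖Z (r • a)‖ = ‖a‖ / ‖Z a‖ := by
  rw [h.hom r a hr ha, norm_smul, norm_smul, mul_div_mul_left _ _ (norm_ne_zero_iff.2 hr)]

theorem det_nrm (h : Hm Z) {a : E} (ha : a ≠ 0) :
    (fderiv ℝ (fun x => (‖x‖ / ‖Z x‖) • Z x) a).det =
      (‖a‖ / ‖Z a‖) ^ Module.finrank ℝ E * (fderiv ℝ Z a).det := by
  have hl := ((h.lam ha).differentiableAt one_ne_zero).hasFDerivAt
  set l := fderiv ℝ (fun x => ‖x‖ / ‖Z x‖) a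
  have hc : ‖a‖ / ‖Z a‖ ≠ 0 := div_ne_zero (norm_ne_zero_iff.2 ha) (norm_ne_zero_iff.2 (h.ne ha))
  have l0 : l a = 0 := by
    have h0 : HasDerivAt (fun r : ℝ => r • a) a 1 := by
      simpa using (hasDerivAt_id (1 : ℝ)).smul_const a
    have h1 : HasDerivAt (fun r : ℝ => ‖r • a‖ / ‖Z (r • a)‖) (l a) 1 :=
      HasFDerivAt.comp_hasDerivAt_of_eq 1 hl h0 (one_smul ℝ a).symm
    have h2 : HasDerivAt (fun r : ℝ => ‖r • a‖ / ‖Z (r • a)‖) 0 1 := by
      refine (hasDerivAt_const (1 : ℝ) (‖a‖ / ‖Z a‖)).congr_of_eventuallyEq ?_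
      filter_upwards [isOpen_ne.mem_nhds (one_ne_zero (α := ℝ))] with r hr using h.lam_hom ha hr
    exact h1.unique h2
  have hd := (hl.smul (h.dat ha)).fderiv
  have e : ((fderiv ℝ (fun x => (‖x‖ / ‖Z x‖) • Z x) a : E →L[ℝ] E) : E →ₗ[ℝ] E) =
      (‖a‖ / ‖Z a‖) • ((fderiv ℝ Z a : E →ₗ[ℝ] E) ∘ₗ
        LinearMap.transvection ((‖a‖ / ‖Z a‖)⁻¹ • (l : E →ₗ[ℝ] ℝ)) a) := by
    ext v
    have := congrArg (fun L : E →L[ℝ] E => L v) hd
    refine this.trans ?_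
    simp only [add_apply, smul_apply, ContinuousLinearMap.smulRight_apply, LinearMap.smul_apply,
      LinearMap.comp_apply, LinearMap.transvection.apply, ContinuousLinearMap.coe_coe, map_add,
      map_smul, h.euler ha, smul_add, smul_smul, smul_eq_mul, mul_inv_cancel_left₀ hc]
  rw [ContinuousLinearMap.det, e, LinearMap.det_smul, LinearMap.det_comp,
    LinearMap.transvection.det]
  simp [l0, ContinuousLinearMap.det]

theorem rad (h : Hm Z) : Rad fun x => (‖x‖ / ‖Z x‖) • Z x := by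
  refine ⟨fun a ha => ((h.lam ha).smul (h.cat ha)).contDiffWithinAt, fun r a hr ha => ?_,
    fun a ha => ?_, fun a ha => ?_⟩
  · rw [h.lam_hom ha hr, h.hom r a hr ha, smul_comm]
  · rw [norm_smul, norm_div, norm_norm, norm_norm,
      div_mul_cancel₀ _ (norm_ne_zero_iff.2 (h.ne ha))]
  · have h0 : a ≠ 0 := norm_ne_zero_iff.1 (by rw [ha]; exact one_ne_zero)
    rw [h.det_nrm h0]
    exact mul_ne_zero (pow_ne_zero _
      (div_ne_zero (norm_ne_zero_iff.2 h0) (norm_ne_zero_iff.2 (h.ne h0)))) (h.det a ha)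

/-- The inverse map. -/
theorem inv (h : Hm Z) (hd : 3 ≤ Module.finrank ℝ E) :
    ∃ W : E → E, Hm W ∧ (∀ a, a ≠ 0 → W (Z a) = a) ∧ (∀ u, u ≠ 0 → Z (W u) = u) ∧
      ∀ a, a ≠ 0 → (fderiv ℝ W (Z a)).comp (fderiv ℝ Z a) = .id ℝ E := by
  obtain ⟨Y, hY, l, r, -⟩ := h.rad.inv hd
  have lp : ∀ a : E, a ≠ 0 → ‖a‖ / ‖Z a‖ ≠ 0 := fun a ha =>
    div_ne_zero (norm_ne_zero_iff.2 ha) (norm_ne_zero_iff.2 (h.ne ha))
  have c : ∀ u, u ≠ 0 → ContDiffAt ℝ 1 (fun u => (‖Y u‖ / ‖Z (Y u)‖) • Y u) u := fun u hu =>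
    ((h.lam (hY.ne hu)).comp u (hY.cat hu)).smul (hY.cat hu)
  have r' : ∀ u, u ≠ 0 → Z ((‖Y u‖ / ‖Z (Y u)‖) • Y u) = u := fun u hu => by
    rw [h.hom _ _ (lp _ (hY.ne hu)) (hY.ne hu)]
    exact r u hu
  have l' : ∀ a, a ≠ 0 → (‖Y (Z a)‖ / ‖Z (Y (Z a))‖) • Y (Z a) = a := fun a ha => by
    have h1 := l a ha
    rw [hY.hom _ _ (lp a ha) (h.ne ha)] at h1
    have h2 := h.lam_hom (hY.ne (h.ne ha)) (lp a ha)
    rw [h1] at h2
    rw [← h2, h1]
  have d : ∀ a, a ≠ 0 → (fderiv ℝ (fun u => (‖Y u‖ / ‖Z (Y u)‖) • Y u) (Z a)).comp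
      (fderiv ℝ Z a) = .id ℝ E := fun a ha => by
    have h1 := ((c _ (h.ne ha)).differentiableAt one_ne_zero).hasFDerivAt.comp a (h.dat ha)
    refine h1.unique ((hasFDerivAt_id a).congr_of_eventuallyEq ?_)
    filter_upwards [op0.mem_nhds ha] with x hx using l' x hx
  refine ⟨_, ⟨fun u hu => (c u hu).contDiffWithinAt, fun s u hs hu => ?_, fun u hu hz => ?_⟩,
    l', r', d⟩
  · rw [hY.hom s u hs hu, h.lam_hom (hY.ne hu) hs, smul_comm]
  · have hu0 : u ≠ 0 := norm_ne_zero_iff.1 (by rw [hu]; exact one_ne_zero)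
    have h1 := congrArg (fun L : E →L[ℝ] E => LinearMap.det (L : E →ₗ[ℝ] E))
      (d _ (smul_ne_zero (lp _ (hY.ne hu0)) (hY.ne hu0)))
    simp only [r' u hu0, ContinuousLinearMap.toLinearMap_comp, LinearMap.det_comp,
      ContinuousLinearMap.coe_id, LinearMap.det_id] at h1
    rw [ContinuousLinearMap.det] at hz
    rw [hz, zero_mul] at h1
    exact zero_ne_one h1

variable [MeasurableSpace E] [BorelSpace E] (μ : Measure E) [μ.IsAddHaarMeasure]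

/-- Change of variables on the unit sphere. -/
theorem cov_int (h : Hm Z) (hd : 3 ≤ Module.finrank ℝ E) (f : E → ℝ) :
    ∫ u : sphere (0 : E) 1, f u ∂μ.toSphere =
      ∫ a : sphere (0 : E) 1, |(fderiv ℝ Z a).det| * (‖Z a‖ ^ Module.finrank ℝ E)⁻¹ *
        f (‖Z a‖⁻¹ • Z a) ∂μ.toSphere := by
  rw [h.rad.cov_int μ hd f]
  refine integral_congr_ae (.of_forall fun a => ?_)
  have h1 : ‖(a : E)‖ = 1 := mem_sphere_zero_iff_norm.1 a.2
  have h0 : (a : E) ≠ 0 := norm_ne_zero_iff.1 (by rw [h1]; exact one_ne_zero)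
  simp only [h.det_nrm h0, h1, one_div, abs_mul, abs_pow, abs_inv, abs_norm, inv_pow]
  ring

/-- The same through the inverse map. -/
theorem cov_inv (h : Hm Z) (hd : 3 ≤ Module.finrank ℝ E) {W : E → E} (hW : Hm W)
    (l : ∀ a, a ≠ 0 → W (Z a) = a) (g : E → ℝ) :
    ∫ a : sphere (0 : E) 1, |(fderiv ℝ Z a).det| * g a ∂μ.toSphere =
      ∫ u : sphere (0 : E) 1, (‖W u‖ ^ Module.finrank ℝ E)⁻¹ * g (‖W u‖⁻¹ • W u) ∂μ.toSphere := by
  rw [h.cov_int μ hd fun u => (‖W u‖ ^ Module.finrank ℝ E)⁻¹ * g (‖W u‖⁻¹ • W u)]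
  refine integral_congr_ae (.of_forall fun a => ?_)
  have h1 : ‖(a : E)‖ = 1 := mem_sphere_zero_iff_norm.1 a.2
  have h0 : (a : E) ≠ 0 := norm_ne_zero_iff.1 (by rw [h1]; exact one_ne_zero)
  have hn : ‖Z a‖ ≠ 0 := norm_ne_zero_iff.2 (h.ne h0)
  simp only [hW.hom _ _ (inv_ne_zero hn) (h.ne h0), l _ h0, norm_smul, norm_inv, norm_norm, h1,
    mul_one, inv_inv, smul_smul, mul_inv_cancel₀ hn, one_smul, inv_pow]
  field_simp

/-- Change of variables on the whole space. -/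
theorem cov_all (h : Hm Z) (hd : 3 ≤ Module.finrank ℝ E) (g : E → ℝ) :
    ∫ x, g x ∂μ = ∫ a, |(fderiv ℝ Z a).det| * g (Z a) ∂μ := by
  have : Nontrivial E := Module.nontrivial_of_finrank_pos (R := ℝ) (by omega)
  obtain ⟨W, hW, l, r, -⟩ := h.inv hd
  have him : Z '' ({0}ᶜ : Set E) = {0}ᶜ := by
    ext u
    exact ⟨fun ⟨a, ha, e⟩ => e ▸ h.ne ha, fun hu => ⟨W u, hW.ne hu, r u hu⟩⟩
  have h1 := integral_image_eq_integral_abs_det_fderiv_smul μ
    (measurableSet_singleton (0 : E)).compl (f := Z) (f' := fderiv ℝ Z)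
    (fun x hx => (h.dat hx).hasFDerivWithinAt)
    (fun x hx y hy e => by rw [← l x hx, e, l y hy]) g
  rwa [him, restrict_compl_singleton] at h1

end Hm

end Pool.Agent.MP_3ee8cb_gt.DNC
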