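import Mathlib

/-! A homogeneous, norm preserving map with invertible derivative off the origin is a
diffeomorphism in dimension at least three; change of variables on the unit sphere. -/

namespace Pool.Agent.MP_3ee8cb_gt.DNC

open Set Filter Topology MeasureTheory Metric

variable {E : Type*} [NormedAddCommGroup E] [NormedSpace ℝ E]

/-- A homogeneous, norm preserving map of class `C¹` with invertible derivative. -/
structure Rad (Z : E → E) : Prop where
  c1 : ContDiffOn ℝ 1 Z {a | a ≠ 0}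
  hom : ∀ (r : ℝ) a, r ≠ 0 → a ≠ 0 → Z (r • a) = r • Z a
  norm : ∀ a, a ≠ 0 → ‖Z a‖ = ‖a‖
  det : ∀ a, ‖a‖ = 1 → (fderiv ℝ Z a).det ≠ 0

omit [NormedSpace ℝ E] in
theorem op0 : IsOpen {a : E | a ≠ 0} := isOpen_ne

namespace Rad

variable {Z : E → E}

theorem cat (h : Rad Z) {a : E} (ha : a ≠ 0) : ContDiffAt ℝ 1 Z a :=
  h.c1.contDiffAt (op0.mem_nhds ha)

theorem dat (h : Rad Z) {a : E} (ha : a ≠ 0) : HasFDerivAt Z (fderiv ℝ Z a) a :=
  ((h.cat ha).differentiableAt one_ne_zero).hasFDerivAt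

theorem ne (h : Rad Z) {a : E} (ha : a ≠ 0) : Z a ≠ 0 := by
  rw [← norm_ne_zero_iff, h.norm a ha]
  exact norm_ne_zero_iff.2 ha

theorem fd (h : Rad Z) {a : E} (ha : a ≠ 0) {r : ℝ} (hr : r ≠ 0) :
    fderiv ℝ Z (r • a) = fderiv ℝ Z a := by
  have h1 : HasFDerivAt (fun x => Z (r • x))
      ((fderiv ℝ Z (r • a)).comp (r • ContinuousLinearMap.id ℝ E)) a :=
    (h.dat (smul_ne_zero hr ha)).comp a ((hasFDerivAt_id a).const_smul r)
  have h2 : HasFDerivAt (fun x => Z (r • x)) (r • fderiv ℝ Z a) a := by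
    refine ((h.dat ha).const_smul r).congr_of_eventuallyEq ?_
    filter_upwards [op0.mem_nhds ha] with x hx using h.hom r x hr hx
  have h3 := h1.unique h2
  ext v
  have h4 := congrArg (fun L : E →L[ℝ] E => L v) h3
  simp only [ContinuousLinearMap.comp_apply, smul_apply,
    ContinuousLinearMap.id_apply, map_smul] at h4
  exact smul_right_injective E hr h4

theorem unit {a : E} (ha : a ≠ 0) : ‖‖a‖⁻¹ • a‖ = 1 := by
  rw [norm_smul, norm_inv, norm_norm, inv_mul_cancel₀ (norm_ne_zero_iff.2 ha)]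

theorem det' (h : Rad Z) {a : E} (ha : a ≠ 0) : (fderiv ℝ Z a).det ≠ 0 := by
  rw [← h.fd ha (inv_ne_zero (norm_ne_zero_iff.2 ha))]
  exact h.det _ (unit ha)

theorem fill (h : Rad Z) : ∃ Y : E → E, Rad Y ∧ Y 0 = 0 ∧ ∀ a, a ≠ 0 → Y a = Z a := by
  classical
  have e : ∀ a : E, a ≠ 0 → Function.update Z 0 0 a = Z a := fun a ha => Function.update_of_ne ha _ _
  refine ⟨Function.update Z 0 0, ⟨h.c1.congr fun a ha => e a ha, fun r a hr ha => ?_,
    fun a ha => ?_, fun a ha => ?_⟩, Function.update_self _ _ _, e⟩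
  · rw [e _ (smul_ne_zero hr ha), e a ha, h.hom r a hr ha]
  · rw [e a ha, h.norm a ha]
  · have h0 : a ≠ 0 := norm_ne_zero_iff.1 (by rw [ha]; exact one_ne_zero)
    have : Function.update Z 0 0 =ᶠ[𝓝 a] Z := by
      filter_upwards [op0.mem_nhds h0] with x hx using e x hx
    rw [this.fderiv_eq]
    exact h.det a ha

theorem nrm (h : Rad Z) (h0 : Z 0 = 0) (a : E) : ‖Z a‖ = ‖a‖ := by
  by_cases ha : a = 0
  · rw [ha, h0]
  · exact h.norm a ha

theorem cont (h : Rad Z) (h0 : Z 0 = 0) : Continuous Z := by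
  refine continuous_iff_continuousAt.2 fun a => ?_
  by_cases ha : a = 0
  · subst ha
    rw [ContinuousAt, h0, tendsto_zero_iff_norm_tendsto_zero]
    simp only [h.nrm h0]
    exact tendsto_norm_zero
  · exact (h.cat ha).continuousAt

variable [FiniteDimensional ℝ E]

theorem closed (h : Rad Z) (h0 : Z 0 = 0) : IsClosedMap Z := by
  have := FiniteDimensional.proper_real E
  refine (isProperMap_iff_tendsto_cocompact.2 ⟨h.cont h0, ?_⟩).isClosedMap
  rw [← Metric.cobounded_eq_cocompact, ← tendsto_norm_atTop_iff_cobounded]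
  simp only [h.nrm h0]
  exact tendsto_norm_cobounded_atTop

theorem eqv (h : Rad Z) {a : E} (ha : a ≠ 0) :
    ∃ L : E ≃L[ℝ] E, (L : E →L[ℝ] E) = fderiv ℝ Z a :=
  ⟨(fderiv ℝ Z a).toContinuousLinearEquivOfDetNeZero (h.det' ha), by simp⟩

theorem loc (h : Rad Z) {a : E} (ha : a ≠ 0) :
    ∃ φ : OpenPartialHomeomorph E E, a ∈ φ.source ∧ φ = Z := by
  have := FiniteDimensional.complete ℝ E
  obtain ⟨L, hL⟩ := h.eqv ha
  have hd : HasFDerivAt Z (L : E →L[ℝ] E) a := hL ▸ h.dat ha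
  exact ⟨(h.cat ha).toOpenPartialHomeomorph Z hd one_ne_zero,
    (h.cat ha).mem_toOpenPartialHomeomorph_source hd one_ne_zero, rfl⟩

theorem cov (h : Rad Z) (h0 : Z 0 = 0) : IsCoveringMapOn Z {u | u ≠ 0} := by
  have := FiniteDimensional.proper_real E
  have n0 : ∀ a, Z a ≠ 0 → a ≠ 0 := fun a ha e => ha (e ▸ h0)
  intro u hu
  have hl : ∀ e ∈ Z ⁻¹' {u}, ∃ φ : OpenPartialHomeomorph E E, e ∈ φ.source ∧ φ = Z :=
    fun e he => h.loc (n0 e (by rw [show Z e = u from he]; exact hu))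
  have hc : IsCompact (Z ⁻¹' {u}) := by
    refine (isCompact_closedBall (0 : E) ‖u‖).of_isClosed_subset
      (isClosed_singleton.preimage (h.cont h0)) fun e he => ?_
    rw [mem_closedBall_zero_iff, ← h.nrm h0, show Z e = u from he]
  exact ((h.closed h0).isEvenlyCovered_of_openPartialHomeomorph
    (hc.finite (.of_openPartialHomeomorph Z subset_rfl hl)) hl).to_isEvenlyCovered_preimage

end Rad

/-- The complement of a ray. -/
def Slit (v : E) : Set E := {x | ∀ c : ℝ, 0 ≤ c → x ≠ c • v}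

theorem slit_ne {v x : E} (hx : x ∈ Slit v) : x ≠ 0 := fun e => hx 0 le_rfl (by simp [e])

theorem slit_neg {v : E} (hv : v ≠ 0) : -v ∈ Slit v := fun c hc e => by
  have : (c + 1) • v = 0 := by rw [add_smul, one_smul, ← e, neg_add_cancel]
  rcases smul_eq_zero.1 this with h | h
  · linarith
  · exact hv h

theorem slit_star {v : E} (hv : v ≠ 0) : StarConvex ℝ (-v) (Slit v) := by
  intro y hy a b ha hb hab c hc e
  rcases hb.eq_or_lt with rfl | hb
  · have : a = 1 := by linarith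
    subst this
    exact slit_neg hv c hc (by simpa using e)
  · refine hy (b⁻¹ * (c + a)) (by positivity) ?_
    rw [mul_smul, add_smul, ← e, smul_neg, neg_add_cancel_comm, smul_smul, inv_mul_cancel₀ hb.ne',
      one_smul]

theorem slit_open {v : E} (hv : v ≠ 0) : IsOpen (Slit v) := by
  have h := (isClosedEmbedding_smul_left (𝕜 := ℝ) hv).isClosedMap _ (isClosed_Ici (a := (0 : ℝ)))
  have : Slit v = ((fun c : ℝ => c • v) '' Ici 0)ᶜ := by
    ext x
    simp only [Slit, mem_ofPred_eq, mem_compl_iff, mem_image, mem_Ici, not_exists, not_and]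
    exact ⟨fun h c hc e => h c hc e.symm, fun h c hc e => h c hc e.symm⟩
  rw [this]
  exact h.isOpen_compl

namespace Rad

variable {Z : E → E} [FiniteDimensional ℝ E]

theorem sec (h : Rad Z) (h0 : Z 0 = 0) {v a : E} (hv : v ≠ 0) (ha : Z a ∈ Slit v) :
    ∃ F : C(Slit v, E), F ⟨_, ha⟩ = a ∧ ∀ x, Z (F x) = x := by
  have := (slit_star hv).contractibleSpace ⟨_, ha⟩
  have := (slit_open hv).locallyPathConnectedSpace
  obtain ⟨F, ⟨h1, h2⟩, -⟩ := (h.cov h0).existsUnique_continuousMap_lifts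
    (⟨Subtype.val, continuous_subtype_val⟩ : C(Slit v, E)) (a₀ := ⟨_, ha⟩) (e₀ := a) rfl
    fun x => slit_ne x.2
  exact ⟨F, h1, fun x => congrFun h2 x⟩

theorem surj (h : Rad Z) (h0 : Z 0 = 0) : Function.Surjective Z := by
  intro u
  by_cases hu : u = 0
  · exact ⟨0, by rw [h0, hu]⟩
  have hv : -u ≠ 0 := neg_ne_zero.2 hu
  have hus : u ∈ Slit (-u) := by simpa using slit_neg hv
  have hn : Z (-u) = -Z u := by simpa using h.hom (-1) u (by norm_num) hu
  have : ∃ a, Z a ∈ Slit (-u) := by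
    by_contra hc
    push Not at hc
    have h1 := hc u
    have h2 := hc (-u)
    simp only [Slit, mem_ofPred_eq, not_forall, not_not] at h1 h2
    obtain ⟨c, hc, e⟩ := h1
    obtain ⟨c', hc', e'⟩ := h2
    have : (c + c') • (-u) = 0 := by rw [add_smul, ← e, ← e', hn, add_neg_cancel]
    have hz : c = 0 := by
      rcases smul_eq_zero.1 this with h | h
      · linarith
      · exact absurd h hv
    exact h.ne hu (by rw [e, hz, zero_smul])
  obtain ⟨a, ha⟩ := this
  obtain ⟨F, -, hF⟩ := h.sec h0 hv ha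
  exact ⟨F ⟨u, hus⟩, hF _⟩

theorem inj (h : Rad Z) (h0 : Z 0 = 0) (hd : 3 ≤ Module.finrank ℝ E) : Function.Injective Z := by
  intro a a' e
  have hn : ‖a‖ = ‖a'‖ := by rw [← h.nrm h0, e, h.nrm h0]
  by_cases ha : a = 0
  · rw [ha, eq_comm, ← norm_eq_zero, ← hn, ha, norm_zero]
  have hp : ∀ t ∈ Icc (0 : ℝ) 1, a + t • (a' - a) ≠ 0 := by
    intro t ht e0
    have e1 : (1 - t) • a = -(t • a') := by
      rw [eq_neg_iff_add_eq_zero, ← e0]; module
    have e2 := congrArg (fun x : E => ‖x‖) e1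
    beta_reduce at e2
    rw [norm_neg, norm_smul, norm_smul, Real.norm_of_nonneg (sub_nonneg.2 ht.2),
      Real.norm_of_nonneg ht.1, ← hn] at e2
    have e3 : t = 1 / 2 := by
      have := mul_right_cancel₀ (norm_ne_zero_iff.2 ha) e2
      linarith
    have e4 : a' = (-1 : ℝ) • a := by
      have : a' = (2 : ℝ) • (a + t • (a' - a)) + (-1 : ℝ) • a := by rw [e3]; module
      rw [this, e0]; simp
    rw [e4, h.hom _ a (by norm_num) ha] at e
    have : (2 : ℝ) • Z a = 0 := by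
      rw [two_smul]; nth_rewrite 1 [e]; simp
    exact h.ne ha ((smul_eq_zero.1 this).resolve_left two_ne_zero)
  have hg : ContDiffOn ℝ 1 (fun q : ℝ × ℝ => q.1 • Z (a + q.2 • (a' - a))) (univ ×ˢ Icc 0 1) :=
    contDiffOn_fst.smul (h.c1.comp (by fun_prop) fun q hq => hp q.2 hq.2)
  have hden := hg.dense_compl_image_of_dimH_lt_finrank (convex_univ.prod (convex_Icc 0 1))
    subset_rfl (lt_of_le_of_lt (dimH_mono (subset_univ _)) (by
      rw [Real.dimH_univ_eq_finrank]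
      have : Module.finrank ℝ (ℝ × ℝ) < Module.finrank ℝ E := by simp; omega
      exact_mod_cast this))
  obtain ⟨v, hv⟩ := hden.nonempty
  have hv' : ∀ r : ℝ, ∀ t ∈ Icc (0 : ℝ) 1, r • Z (a + t • (a' - a)) ≠ v :=
    fun r t ht e => hv ⟨(r, t), ⟨trivial, ht⟩, e⟩
  have hv0 : v ≠ 0 := fun e => hv' 0 0 (by simp) (by simp [e])
  have hs : ∀ t ∈ Icc (0 : ℝ) 1, Z (a + t • (a' - a)) ∈ Slit v := by
    intro t ht c hc e
    have hc0 : c ≠ 0 := fun e0 => h.ne (hp t ht) (by rw [e, e0, zero_smul])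
    exact hv' c⁻¹ t ht (by rw [e, smul_smul, inv_mul_cancel₀ hc0, one_smul])
  have ha0 : Z a ∈ Slit v := by simpa using hs 0 (by simp)
  obtain ⟨F, hF, hZ⟩ := h.sec h0 hv0 ha0
  let p : C(ℝ, E) := ⟨fun t => a + (projIcc 0 1 zero_le_one t : ℝ) • (a' - a), by fun_prop⟩
  have hps : ∀ t, Z (p t) ∈ Slit v := fun t => hs _ (projIcc 0 1 zero_le_one t).2
  have hcp : Continuous fun t => Z (p t) := (h.cont h0).comp p.continuous
  let q : C(ℝ, E) := F.comp ⟨fun t => ⟨Z (p t), hps t⟩, hcp.subtype_mk _⟩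
  have p0 : p 0 = a := by simp [p]
  have p1 : p 1 = a' := by simp [p]
  have hu := (h.cov h0).existsUnique_continuousMap_lifts (⟨fun t => Z (p t), hcp⟩ : C(ℝ, E))
    (a₀ := 0) (e₀ := a) (by simp [p0]) fun t => slit_ne (hps t)
  have hq : ∀ t, Z (p t) = Z a → q t = a := fun t ht => by
    rw [← hF]
    exact congrArg F (Subtype.ext ht)
  have hpq : p = q := hu.unique ⟨p0, rfl⟩ ⟨hq 0 (by rw [p0]), funext fun t => hZ _⟩
  rw [← p1, hpq, hq 1 (by rw [p1, e])]

theorem inv0 (h : Rad Z) (h0 : Z 0 = 0) (hd : 3 ≤ Module.finrank ℝ E) :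
    ∃ W : E → E, Rad W ∧ (∀ a, W (Z a) = a) ∧ (∀ u, Z (W u) = u) ∧
      ∀ a, a ≠ 0 → (fderiv ℝ W (Z a)).comp (fderiv ℝ Z a) = .id ℝ E := by
  have := FiniteDimensional.complete ℝ E
  let e := (Equiv.ofBijective Z ⟨h.inj h0 hd, h.surj h0⟩).toHomeomorphOfContinuousClosed
    (h.cont h0) (h.closed h0)
  have l : ∀ a, e.symm (Z a) = a := e.symm_apply_apply
  have r : ∀ u, Z (e.symm u) = u := e.apply_symm_apply
  have n0 : ∀ u, u ≠ 0 → e.symm u ≠ 0 := fun u hu hz => hu (by rw [← r u, hz, h0])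
  have c : ∀ u, u ≠ 0 → ContDiffAt ℝ 1 e.symm u := fun u hu => by
    obtain ⟨L, hL⟩ := h.eqv (n0 u hu)
    exact e.toOpenPartialHomeomorph.contDiffAt_symm (f₀' := L) trivial
      (hL ▸ h.dat (n0 u hu)) (h.cat (n0 u hu))
  have d : ∀ a, a ≠ 0 → (fderiv ℝ e.symm (Z a)).comp (fderiv ℝ Z a) = .id ℝ E := fun a ha => by
    have h1 := ((c _ (h.ne ha)).differentiableAt one_ne_zero).hasFDerivAt.comp a (h.dat ha)
    have h2 : (e.symm ∘ Z) = id := funext l
    rw [h2] at h1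
    exact h1.unique (hasFDerivAt_id a)
  refine ⟨e.symm, ⟨fun u hu => (c u hu).contDiffWithinAt, fun s u hs hu => ?_, fun u _ => ?_,
    fun u hu hz => ?_⟩, l, r, d⟩
  · rw [← l (s • e.symm u), h.hom s _ hs (n0 u hu), r]
  · rw [← h.nrm h0, r]
  · have hu0 : u ≠ 0 := norm_ne_zero_iff.1 (by rw [hu]; exact one_ne_zero)
    have h1 := congrArg (fun L : E →L[ℝ] E => LinearMap.det (L : E →ₗ[ℝ] E)) (d _ (n0 u hu0))
    simp only [r, ContinuousLinearMap.toLinearMap_comp, LinearMap.det_comp, ContinuousLinearMap.coe_id,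
      LinearMap.det_id] at h1
    rw [ContinuousLinearMap.det] at hz
    rw [hz, zero_mul] at h1
    exact zero_ne_one h1

/-- The inverse map. -/
theorem inv (h : Rad Z) (hd : 3 ≤ Module.finrank ℝ E) :
    ∃ W : E → E, Rad W ∧ (∀ a, a ≠ 0 → W (Z a) = a) ∧ (∀ u, u ≠ 0 → Z (W u) = u) ∧
      ∀ a, a ≠ 0 → (fderiv ℝ W (Z a)).comp (fderiv ℝ Z a) = .id ℝ E := by
  obtain ⟨Y, hY, h0, e⟩ := h.fill
  obtain ⟨W, hW, l, r, d⟩ := hY.inv0 h0 hd
  refine ⟨W, hW, fun a ha => by rw [← e a ha, l], fun u hu => by rw [← e _ (hW.ne hu), r],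
    fun a ha => ?_⟩
  have : Y =ᶠ[𝓝 a] Z := by
    filter_upwards [op0.mem_nhds ha] with x hx using e x hx
  rw [← e a ha, ← this.fderiv_eq]
  exact d a ha

end Rad

variable [MeasurableSpace E] [BorelSpace E] [FiniteDimensional ℝ E]
  (μ : Measure E) [μ.IsAddHaarMeasure]

theorem polar (J : E → ℝ) : ∫ v in ball (0 : E) 1 \ {0}, J (‖v‖⁻¹ • v) ∂μ =
    (∫ p : sphere (0 : E) 1, J p ∂μ.toSphere) *
      (Measure.volumeIoiPow (Module.finrank ℝ E - 1)).real
        (Iio (⟨1, mem_Ioi.2 one_pos⟩ : Ioi (0 : ℝ))) := by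
  have hm : MeasurableSet ({0}ᶜ : Set E) := (measurableSet_singleton _).compl
  calc ∫ v in ball (0 : E) 1 \ {0}, J (‖v‖⁻¹ • v) ∂μ
      = ∫ x : ({0}ᶜ : Set E), (ball (0 : E) 1).indicator (fun v => J (‖v‖⁻¹ • v)) x.1
          ∂(μ.comap (↑)) := by
        rw [integral_subtype_comap hm, setIntegral_indicator measurableSet_ball, inter_comm,
          sdiff_eq]
    _ = ∫ x : sphere (0 : E) 1 × Ioi (0 : ℝ), J x.1 *
          (Iio (⟨1, mem_Ioi.2 one_pos⟩ : Ioi (0 : ℝ))).indicator (fun _ => (1 : ℝ)) x.2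
          ∂μ.toSphere.prod (.volumeIoiPow (Module.finrank ℝ E - 1)) := by
        rw [← μ.measurePreserving_homeomorphUnitSphereProd.integral_comp
          (Homeomorph.measurableEmbedding _)]
        refine integral_congr_ae (.of_forall fun x => ?_)
        have h1 : (homeomorphUnitSphereProd E x).2 ∈
            Iio (⟨1, mem_Ioi.2 one_pos⟩ : Ioi (0 : ℝ)) ↔ x.1 ∈ ball (0 : E) 1 := by
          rw [mem_ball_zero_iff, mem_Iio, ← Subtype.coe_lt_coe,
            homeomorphUnitSphereProd_apply_snd_coe]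
        by_cases hx : x.1 ∈ ball (0 : E) 1
        · simp only [indicator_of_mem hx, indicator_of_mem (h1.2 hx), mul_one,
            homeomorphUnitSphereProd_apply_fst_coe]
        · simp only [indicator_of_notMem hx, indicator_of_notMem (mt h1.1 hx), mul_zero]
    _ = _ := by
        rw [integral_prod_mul (fun p : sphere (0 : E) 1 => J p), integral_indicator_const _
          measurableSet_Iio, smul_eq_mul, mul_one]

/-- Change of variables on the unit sphere. -/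
theorem Rad.cov_int {Z : E → E} (h : Rad Z) (hd : 3 ≤ Module.finrank ℝ E) (f : E → ℝ) :
    ∫ u : sphere (0 : E) 1, f u ∂μ.toSphere =
      ∫ a : sphere (0 : E) 1, |(fderiv ℝ Z a).det| * f (Z a) ∂μ.toSphere := by
  obtain ⟨W, hW, l, r, -⟩ := h.inv hd
  have him : Z '' (ball (0 : E) 1 \ {0}) = ball (0 : E) 1 \ {0} := by
    ext u
    constructor
    · rintro ⟨a, ⟨h1, h2⟩, rfl⟩
      exact ⟨by rw [mem_ball_zero_iff, h.norm a h2]; exact mem_ball_zero_iff.1 h1, h.ne h2⟩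
    · rintro ⟨h1, h2⟩
      exact ⟨W u, ⟨by rw [mem_ball_zero_iff, hW.norm u h2]; exact mem_ball_zero_iff.1 h1,
        hW.ne h2⟩, r u h2⟩
  have hm : MeasurableSet (ball (0 : E) 1 \ {0}) :=
    measurableSet_ball.diff (measurableSet_singleton _)
  have h1 := integral_image_eq_integral_abs_det_fderiv_smul μ hm (f := Z) (f' := fderiv ℝ Z)
    (fun x hx => (h.dat hx.2).hasFDerivWithinAt)
    (fun x hx y hy e => by rw [← l x hx.2, e, l y hy.2]) fun v => f (‖v‖⁻¹ • v)
  have h2 := polar μ fun a => |(fderiv ℝ Z a).det| * f (Z a)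
  have h3 : ∫ x in ball (0 : E) 1 \ {0}, |(fderiv ℝ Z x).det| • f (‖Z x‖⁻¹ • Z x) ∂μ =
      ∫ v in ball (0 : E) 1 \ {0}, |(fderiv ℝ Z (‖v‖⁻¹ • v)).det| * f (Z (‖v‖⁻¹ • v)) ∂μ := by
    refine setIntegral_congr_fun hm fun x hx => ?_
    have hn : ‖x‖⁻¹ ≠ 0 := inv_ne_zero (norm_ne_zero_iff.2 hx.2)
    simp only [h.fd hx.2 hn, h.hom _ x hn hx.2, h.norm x hx.2, smul_eq_mul]
  rw [him, polar μ f, h3, h2] at h1
  refine mul_right_cancel₀ ?_ h1
  rw [Measure.real, Measure.volumeIoiPow_apply_Iio]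
  exact (ENNReal.toReal_pos (ENNReal.ofReal_pos.2 (by positivity)).ne' ENNReal.ofReal_ne_top).ne'

end Pool.Agent.MP_3ee8cb_gt.DNC
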